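import Mathlib
import Pool.Agent.H24.Cls.Final

namespace Pool.Agent.Results.MP_7b3c7e_nt.OnePrime

open NumberField

/-- The number of rational primes `p < E` that are not inert in `K`, that is, such that the ideal
`(p)` of the ring of integers is not prime (`p` splits or ramifies). -/
noncomputable def nonInertCount (K : Type*) [Field K] [NumberField K] (E : ℝ) : ℕ :=
  Set.ncard {p : ℕ | p.Prime ∧ ¬ (Ideal.span {(p : 𝓞 K)}).IsPrime ∧ (p : ℝ) < E}

/-- `M_Δ = √Δ / 2`. -/
noncomputable def boundM (Δ : ℤ) : ℝ := Real.sqrt (Δ : ℝ) / 2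

/-- `σ = 2` if `Δ ≡ 1 mod 4` and `σ = 1` otherwise. -/
def sigma (Δ : ℤ) : ℤ := if Δ % 4 = 1 then 2 else 1

/-- `A_Δ = √(Δ - σ + 1) / 2`. -/
noncomputable def boundA (Δ : ℤ) : ℝ := Real.sqrt ((Δ - sigma Δ + 1 : ℤ) : ℝ) / 2

open Classical in
/-- Finset version of the counts -/
noncomputable def fs (K : Type*) [Field K] [NumberField K] (X : ℤ) : Finset ℕ :=
  (Finset.range X.toNat).filter (fun p => p.Prime ∧ ¬ (Ideal.span {(p : 𝓞 K)}).IsPrime ∧
    4 * (p : ℤ) ^ 2 < X)

theorem mem_fs {K : Type*} [Field K] [NumberField K] {X : ℤ} {p : ℕ} :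
    p ∈ fs K X ↔ p.Prime ∧ ¬ (Ideal.span {(p : 𝓞 K)}).IsPrime ∧ 4 * (p : ℤ) ^ 2 < X := by
  classical
  unfold fs
  rw [Finset.mem_filter, Finset.mem_range]
  constructor
  · exact fun h => h.2
  · intro h
    refine ⟨?_, h⟩
    have h1 : (1 : ℤ) ≤ p := by exact_mod_cast h.1.pos
    have h2 : (p : ℤ) < X := by nlinarith [h.2.2]
    omega

theorem lt_half_sqrt {p : ℕ} {X : ℤ} : (p : ℝ) < Real.sqrt (X : ℝ) / 2 ↔ 4 * (p : ℤ) ^ 2 < X := by
  rw [lt_div_iff₀ (by norm_num), Real.lt_sqrt (by positivity)]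
  constructor
  · intro h
    have : ((4 * (p : ℤ) ^ 2 : ℤ) : ℝ) < (X : ℝ) := by push_cast; linarith
    exact_mod_cast this
  · intro h
    have : ((4 * (p : ℤ) ^ 2 : ℤ) : ℝ) < (X : ℝ) := by exact_mod_cast h
    push_cast at this; linarith

theorem count_eq (K : Type*) [Field K] [NumberField K] (X : ℤ) :
    nonInertCount K (Real.sqrt (X : ℝ) / 2) = (fs K X).card := by
  unfold nonInertCount
  rw [← Set.ncard_coe_finset]
  congr 1
  ext p
  simp only [Set.mem_ofPred_eq, Finset.mem_coe, mem_fs, lt_half_sqrt]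

theorem forward (K : Type*) [Field K] [NumberField K] (hdeg : Module.finrank ℚ K = 2)
    (hreal : 0 < discr K) (hh : 1 < classNumber K) :
    (classNumber K = Monoid.exponent (ClassGroup (𝓞 K)) ^ nonInertCount K (boundM (discr K)) →
      nonInertCount K (boundM (discr K)) = 1) ∧
    (classNumber K = Monoid.exponent (ClassGroup (𝓞 K)) ^ nonInertCount K (boundA (discr K)) →
      nonInertCount K (boundA (discr K)) = 1 ∧ nonInertCount K (boundM (discr K)) = 1) := by
  obtain ⟨q, hq⟩ := Pool.Agent.H24.Cls.exists_quad K hdeg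
  have hM : nonInertCount K (boundM (discr K)) = (fs K (discr K)).card := count_eq K _
  have hA : nonInertCount K (boundA (discr K)) = (fs K (discr K - sigma (discr K) + 1)).card :=
    count_eq K _
  have hσ : sigma (discr K) = 1 ∨ (sigma (discr K) = 2 ∧ discr K % 4 = 1) := by
    unfold sigma
    split_ifs with h
    · right; exact ⟨rfl, h⟩
    · left; rfl
  have pos_of : ∀ T : Finset ℕ, classNumber K = Monoid.exponent (ClassGroup (𝓞 K)) ^ T.card →
      T.card ≤ 1 → T.card = 1 := by
    intro T hT hle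
    by_contra hcon
    have : T.card = 0 := by omega
    rw [this, pow_zero] at hT
    omega
  have one : classNumber K = Monoid.exponent (ClassGroup (𝓞 K)) ^ (fs K (discr K)).card →
      (fs K (discr K)).card = 1 := by
    intro hcard
    obtain ⟨d, hdT, _⟩ := Pool.Agent.H24.Cls.mkData K hdeg hreal hh q hq (fs K (discr K))
      (fun p hp => mem_fs.1 hp)
      (fun I hI l hl hN hni hsm hdvd hlT => absurd (mem_fs.2 ⟨hl, hni, hsm⟩) hlT) hcard
    have h1 := d.card_le_one
    rw [hdT] at h1
    exact pos_of _ hcard h1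
  rw [hM, hA]
  refine ⟨one, ?_⟩
  intro hcard
  -- the set for `A` is contained in the set for `M`
  have hsub : ∀ p ∈ fs K (discr K - sigma (discr K) + 1), p.Prime ∧
      ¬ (Ideal.span {(p : 𝓞 K)}).IsPrime ∧ 4 * (p : ℤ) ^ 2 < discr K := by
    intro p hp
    rw [mem_fs] at hp
    refine ⟨hp.1, hp.2.1, ?_⟩
    rcases hσ with h | ⟨h, _⟩ <;> rw [h] at hp <;> linarith [hp.2.2]
  have hout : ∀ l : ℕ, l.Prime → ¬ (Ideal.span {(l : 𝓞 K)}).IsPrime →
      4 * (l : ℤ) ^ 2 < discr K → l ∉ fs K (discr K - sigma (discr K) + 1) →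
      discr K = 4 * (l : ℤ) ^ 2 + 1 := by
    intro l hl hni hsm hlT
    rw [mem_fs] at hlT
    have h1 : ¬ 4 * (l : ℤ) ^ 2 < discr K - sigma (discr K) + 1 := fun h => hlT ⟨hl, hni, h⟩
    rcases hσ with h | ⟨h, _⟩ <;> rw [h] at h1 <;> omega
  obtain ⟨d, hdT, hdq⟩ := Pool.Agent.H24.Cls.mkData K hdeg hreal hh q hq
    (fs K (discr K - sigma (discr K) + 1)) hsub
    (fun I hI l hl hN hni hsm hdvd hlT => Pool.Agent.H24.Cls.principal_above q hl
      (by rw [hq]; exact hout l hl hni hsm hlT) hI hdvd) hcard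
  have h1 := d.card_le_one
  rw [hdT] at h1
  have h2 := pos_of _ hcard h1
  refine ⟨h2, ?_⟩
  by_cases hall : ∀ l ∈ fs K (discr K), l ∈ fs K (discr K - sigma (discr K) + 1)
  · have heq : fs K (discr K) = fs K (discr K - sigma (discr K) + 1) := by
      apply Finset.Subset.antisymm hall
      intro p hp
      rw [mem_fs]
      exact hsub p hp
    rw [heq]; exact h2
  · exfalso
    push Not at hall
    obtain ⟨r, hr1, hr2⟩ := hall
    rw [mem_fs] at hr1
    have hD := hout r hr1.1 hr1.2.1 hr1.2.2 hr2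
    obtain ⟨q0, hq0⟩ := Finset.card_eq_one.1 h2
    refine d.special (q0 := q0) (r := r) (by rw [hdT, hq0]) hr1.1 (by rw [hdq, hq, hD]) ?_
    intro l hl hni hsm
    rw [hdq, hq] at hsm
    by_cases hlT : l ∈ fs K (discr K - sigma (discr K) + 1)
    · left
      rw [hq0, Finset.mem_singleton] at hlT
      exact hlT
    · right
      have hD2 := hout l hl hni hsm hlT
      rw [hD] at hD2
      have h3 : (r : ℤ) ^ 2 = (l : ℤ) ^ 2 := by linarith
      have h4 : (r : ℤ) = l := by
        rcases sq_eq_sq_iff_eq_or_eq_neg.1 h3 with h | h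
        · exact h
        · have := hr1.1.pos
          omega
      exact_mod_cast h4.symm

/-- if `N_M = 1` and `h = e > 1` then `N_A = 1` -/
theorem backward (K : Type*) [Field K] [NumberField K] (hdeg : Module.finrank ℚ K = 2)
    (hreal : 0 < discr K) (hh : 1 < classNumber K)
    (h1 : nonInertCount K (boundM (discr K)) = 1)
    (h2 : classNumber K = Monoid.exponent (ClassGroup (𝓞 K))) :
    nonInertCount K (boundA (discr K)) = 1 := by
  obtain ⟨q, hq⟩ := Pool.Agent.H24.Cls.exists_quad K hdeg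
  have hM : nonInertCount K (boundM (discr K)) = (fs K (discr K)).card := count_eq K _
  have hA : nonInertCount K (boundA (discr K)) = (fs K (discr K - sigma (discr K) + 1)).card :=
    count_eq K _
  rw [hM] at h1
  rw [hA]
  obtain ⟨d, hdT, hdq⟩ := Pool.Agent.H24.Cls.mkData K hdeg hreal hh q hq (fs K (discr K))
    (fun p hp => mem_fs.1 hp)
    (fun I hI l hl hN hni hsm hdvd hlT => absurd (mem_fs.2 ⟨hl, hni, hsm⟩) hlT)
    (by rw [h1, pow_one]; exact h2)
  obtain ⟨r, hr⟩ := Finset.card_eq_one.1 h1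
  have hr1 : r ∈ fs K (discr K) := by rw [hr]; exact Finset.mem_singleton_self _
  rw [mem_fs] at hr1
  have hsub : fs K (discr K - sigma (discr K) + 1) ⊆ {r} := by
    intro p hp
    rw [← hr]
    rw [mem_fs] at hp ⊢
    refine ⟨hp.1, hp.2.1, ?_⟩
    have hσ : 1 ≤ sigma (discr K) := by unfold sigma; split_ifs <;> norm_num
    linarith [hp.2.2]
  by_cases hmem : r ∈ fs K (discr K - sigma (discr K) + 1)
  · have : fs K (discr K - sigma (discr K) + 1) = {r} := by
      apply Finset.Subset.antisymm hsub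
      intro p hp
      rw [Finset.mem_singleton] at hp
      rw [hp]; exact hmem
    rw [this, Finset.card_singleton]
  · exfalso
    rw [mem_fs] at hmem
    have h3 : ¬ 4 * (r : ℤ) ^ 2 < discr K - sigma (discr K) + 1 :=
      fun h => hmem ⟨hr1.1, hr1.2.1, h⟩
    have hD : discr K = 4 * (r : ℤ) ^ 2 + 1 := by
      have h4 := hr1.2.2
      unfold sigma at h3
      split_ifs at h3 with h5 <;> omega
    have hrT : r ∈ d.T := by rw [hdT, hr]; exact Finset.mem_singleton_self _
    have hg : d.g r = 1 := by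
      apply Pool.Agent.H24.Cls.principal_above d.q hr1.1 (by rw [hdq, hq, hD]) (d.P_prime hrT true)
      rw [d.span_eq hrT true]
      exact Dvd.intro _ rfl
    have htriv : ∀ C : ClassGroup (𝓞 K), C = 1 := by
      intro C
      obtain ⟨z, hz⟩ := d.surj C
      rw [hz, hdT, hr, Finset.prod_singleton, hg, one_zpow]
    have h6 : classNumber K = 1 := by
      rw [classNumber, Fintype.card_eq_one_iff]
      exact ⟨1, htriv⟩
    omega

/-- Let `K` be a real quadratic field with discriminant `Δ`, class number `h > 1` and class group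
exponent `e`. Let `N_M` and `N_A` be the numbers of non-inert primes below `M_Δ` and `A_Δ`. Then
`h = e ^ N_M` holds exactly when `N_M = 1` and `h = e`, and `h = e ^ N_A` holds exactly when
`N_M = 1` and `h = e`. -/
theorem result (K : Type*) [Field K] [NumberField K] (hdeg : Module.finrank ℚ K = 2)
    (hreal : 0 < discr K) (hh : 1 < classNumber K) :
    (classNumber K = Monoid.exponent (ClassGroup (𝓞 K)) ^ nonInertCount K (boundM (discr K)) ↔
      nonInertCount K (boundM (discr K)) = 1 ∧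
        classNumber K = Monoid.exponent (ClassGroup (𝓞 K))) ∧
    (classNumber K = Monoid.exponent (ClassGroup (𝓞 K)) ^ nonInertCount K (boundA (discr K)) ↔
      nonInertCount K (boundM (discr K)) = 1 ∧
        classNumber K = Monoid.exponent (ClassGroup (𝓞 K))) := by
  have hf := forward K hdeg hreal hh
  refine ⟨⟨fun h => ?_, fun h => ?_⟩, ⟨fun h => ?_, fun h => ?_⟩⟩
  · have h1 := hf.1 h
    refine ⟨h1, ?_⟩
    rw [h1, pow_one] at h
    exact h
  · rw [h.1, pow_one]; exact h.2
  · obtain ⟨h1, h2⟩ := hf.2 h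
    refine ⟨h2, ?_⟩
    rw [h1, pow_one] at h
    exact h
  · rw [backward K hdeg hreal hh h.1 h.2, pow_one]
    exact h.2

end Pool.Agent.Results.MP_7b3c7e_nt.OnePrime
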